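import Pool.Agent.Lib.MP_606be1_nt.TG.Main

namespace Pool.Agent.Lib.MP_606be1_nt.TG.Fallback

open Pool.Agent.Lib.MP_606be1_nt

/-- The count of solutions cut at a tower height and at a bound for the gcd has the expected
main term, for every pair of bases. -/
theorem result (α β : ℂ) (hα : 1 < ‖α‖) (hβ : 1 < ‖β‖) :
    ∃ C : ℝ, ∀ (x : ℝ) (k G : ℕ), 3 ≤ x → 1 ≤ G → x ≤ ‖α‖ ^ tw k → ∃ N : ℕ,
      {p : ℕ × ℕ | ‖α ^ p.1 - β ^ p.2‖ ≤ x ∧ p.1 ≤ tw k ∧ Nat.gcd p.1 p.2 ≤ G}.encard = N ∧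
      |(N : ℝ) - Real.log x ^ 2 / (Real.log ‖α‖ * Real.log ‖β‖)| ≤
        C * (Real.log x + Real.log x ^ 2 / G + (k + 1) * G) :=
  TG.truncated hα hβ

end Pool.Agent.Lib.MP_606be1_nt.TG.Fallback
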