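import Pool.Agent.Lib.MP_606be1_nt.Tower

/-! Gap principle: far solutions with a given gcd are spaced like a tower. -/

namespace Pool.Agent.Lib.MP_606be1_nt.TG

open Real Set Filter

lemma chainN {c : ℝ} (hc : 0 < c) (k : ℕ) : ∀ S : Finset ℕ,
    (∀ n ∈ S, 16 / c ^ 3 ≤ n) → (∀ n ∈ S, ∀ i ∈ S, n < i → exp (c * n / 2) ≤ i) →
      2 * k < S.card → ∃ n ∈ S, tw k ≤ n := by
  induction k with
  | zero =>
    intro S h0 _ hS
    obtain ⟨j, hj⟩ := Finset.card_pos.1 hS
    have h1 : (0 : ℝ) < j := lt_of_lt_of_le (by positivity) (h0 j hj)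
    exact ⟨j, hj, by exact_mod_cast h1⟩
  | succ k ih =>
    intro S h0 step hc'
    have hne : S.Nonempty := Finset.card_pos.1 (by omega)
    set j2 := S.max' hne with hj2
    have m2 : j2 ∈ S := S.max'_mem hne
    have c1 : (S.erase j2).card = S.card - 1 := Finset.card_erase_of_mem m2
    have hne1 : (S.erase j2).Nonempty := Finset.card_pos.1 (by omega)
    set j1 := (S.erase j2).max' hne1 with hj1
    have m1 : j1 ∈ S.erase j2 := Finset.max'_mem _ hne1
    have c2 : ((S.erase j2).erase j1).card = (S.erase j2).card - 1 := Finset.card_erase_of_mem m1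
    have sub : ∀ j ∈ (S.erase j2).erase j1, j ∈ S := fun j hj =>
      Finset.mem_of_mem_erase (Finset.mem_of_mem_erase hj)
    obtain ⟨j, hj, hjk⟩ := ih ((S.erase j2).erase j1) (fun j hj => h0 j (sub j hj))
      (fun j hj i hi => step j (sub j hj) i (sub i hi)) (by omega)
    have l1 : j < j1 := lt_of_le_of_ne (Finset.le_max' _ _ (Finset.mem_of_mem_erase hj))
      (Finset.ne_of_mem_erase hj)
    have l2 : j1 < j2 := lt_of_le_of_ne (Finset.le_max' _ _ (Finset.mem_of_mem_erase m1))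
      (Finset.ne_of_mem_erase m1)
    have s1 := step j (sub j hj) j1 (Finset.mem_of_mem_erase m1) l1
    have s2 := step j1 (Finset.mem_of_mem_erase m1) j2 m2 l2
    refine ⟨j2, m2, ?_⟩
    set y : ℝ := (j : ℝ) with hy
    have y0 : 16 / c ^ 3 ≤ y := h0 j (sub j hj)
    have y1 : 0 < y := lt_of_lt_of_le (by positivity) y0
    rw [div_le_iff₀ (by positivity)] at y0
    have e1 := quadratic_le_exp_of_nonneg (x := c * y / 2) (by positivity)
    have e2 : y ≤ c * j1 / 2 := by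
      have e3 : (c * y / 2) ^ 2 / 2 ≤ j1 := by
        have : 0 ≤ c * y / 2 := by positivity
        linarith
      have e4 : c * ((c * y / 2) ^ 2 / 2) / 2 ≤ c * j1 / 2 := by gcongr
      have e5 : c * ((c * y / 2) ^ 2 / 2) / 2 = y * (y * c ^ 3) / 16 := by ring
      have e6 : y * 16 ≤ y * (y * c ^ 3) := by gcongr
      linarith
    have e3 : (2 : ℝ) ^ j ≤ exp y := by
      rw [hy, ← exp_one_pow]
      gcongr
      linarith [add_one_le_exp (1 : ℝ)]
    have e4 : ((2 ^ j : ℕ) : ℝ) ≤ j2 := by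
      push_cast
      exact e3.trans ((exp_le_exp.2 e2).trans s2)
    have e5 : 2 ^ j ≤ j2 := by exact_mod_cast e4
    exact (Nat.pow_le_pow_right (by norm_num) hjk).trans e5

lemma eq_of_prop {n m n' m' : ℕ} (hn : 0 < n) (hg : Nat.gcd n m = Nat.gcd n' m')
    (h : n * m' = n' * m) : n = n' ∧ m = m' := by
  have g0 : 0 < Nat.gcd n m := Nat.gcd_pos_of_pos_left _ hn
  have h1 : n * Nat.gcd n' m' = n' * Nat.gcd n m := by
    rw [← Nat.gcd_mul_left, ← Nat.gcd_mul_left, h, mul_comm n n']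
  rw [← hg] at h1
  have h2 : n = n' := Nat.eq_of_mul_eq_mul_right g0 h1
  subst h2
  exact ⟨rfl, (Nat.eq_of_mul_eq_mul_left hn h).symm⟩

variable {α β : ℝ} (hα : 1 < α) (hβ : 1 < β)
include hα hβ

lemma gap {x : ℝ} {n m n' m' : ℕ} (h : (n, m) ∈ T α β x) (h' : (n', m') ∈ T α β x)
    (hn : 2 * x ≤ α ^ n) (hle : n ≤ n') (hne : n * m' ≠ n' * m) :
    α ^ n * log β ≤ 4 * x * n' := by
  have hb := log_pos hβ
  have hp : α ^ n ≤ α ^ n' := pow_le_pow_right₀ hα.le hle
  have h0 : 0 < α ^ n := by positivity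
  have a1 := approx_of_mem hα hβ h hn
  have a2 := approx_of_mem hα hβ h' (hn.trans hp)
  set ξ := log α / log β
  set e := |(n : ℝ) * ξ - m| with he
  set e' := |(n' : ℝ) * ξ - m'| with he'
  have e0 : 0 ≤ e := abs_nonneg _
  have e0' : 0 ≤ e' := abs_nonneg _
  have a3 : α ^ n / 2 * (log β * e') ≤ x := le_trans (by gcongr) a2
  have i1 : (1 : ℝ) ≤ |(n : ℝ) * m' - n' * m| := by
    have : (1 : ℤ) ≤ |(n : ℤ) * m' - n' * m| :=
      Int.one_le_abs (sub_ne_zero.2 (by exact_mod_cast hne))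
    exact_mod_cast this
  have hle' : (n : ℝ) ≤ n' := by exact_mod_cast hle
  have n0 : (0 : ℝ) ≤ n := Nat.cast_nonneg _
  have i2 : |(n : ℝ) * m' - n' * m| ≤ n' * e + n' * e' := by
    have : (n : ℝ) * m' - n' * m = n' * (n * ξ - m) - n * (n' * ξ - m') := by ring
    rw [this]
    refine (abs_sub _ _).trans ?_
    rw [abs_mul, abs_mul, abs_of_nonneg n0, abs_of_nonneg (n0.trans hle')]
    gcongr
  have i3 : α ^ n * log β * 1 ≤ α ^ n * log β * (n' * e + n' * e') := by
    gcongr; exact i1.trans i2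
  have i4 : (n' : ℝ) * (α ^ n / 2 * (log β * e)) ≤ n' * x := by gcongr
  have i5 : (n' : ℝ) * (α ^ n / 2 * (log β * e')) ≤ n' * x := by gcongr
  linarith

/-- far solutions below `tw k` with one value of the gcd -/
lemma far : ∃ C : ℝ, 0 ≤ C ∧ ∀ x, 1 ≤ x → ∀ (k g : ℕ) (F : Finset (ℕ × ℕ)),
    (∀ p ∈ F, p ∈ T α β x ∧ 2 * x ≤ α ^ p.1 ∧ 2 / log α * (log x + C) < p.1 ∧ p.1 ≤ tw k ∧
      Nat.gcd p.1 p.2 = g) → F.card ≤ 2 * (k + 1) := by
  classical
  have ha := log_pos hα
  have hb := log_pos hβ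
  set c := log α with hc
  refine ⟨|log (4 / log β)| + 8 / c ^ 2 + 8 / c, by positivity, fun x hx k g F hF => ?_⟩
  have hL := log_nonneg hx
  have e : 2 / c * (log x + (|log (4 / log β)| + 8 / c ^ 2 + 8 / c)) =
      2 / c * (log x + |log (4 / log β)|) + 16 / c ^ 3 + 16 / c ^ 2 := by
    field_simp; ring
  have p1 : 0 ≤ 2 / c * (log x + |log (4 / log β)|) := by positivity
  have p2 : 0 < 16 / c ^ 3 := by positivity
  have p3 : 0 < 16 / c ^ 2 := by positivity
  have pos : ∀ p ∈ F, 0 < p.1 := fun p hp => by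
    have := (hF p hp).2.2.1
    rw [e] at this
    exact_mod_cast (show (0 : ℝ) < p.1 by linarith)
  have step : ∀ p ∈ F, ∀ p' ∈ F, p ≠ p' → p.1 ≤ p'.1 → exp (c * p.1 / 2) ≤ p'.1 := by
    rintro ⟨n, m⟩ hp ⟨n', m'⟩ hp' hne hle
    obtain ⟨h1, h2, h3, -, h5⟩ := hF _ hp
    obtain ⟨h1', -, -, -, h5'⟩ := hF _ hp'
    have hg := gap hα hβ h1 h1' h2 hle fun h => hne (by
      obtain ⟨rfl, rfl⟩ := eq_of_prop (pos _ hp) (h5.trans h5'.symm) h
      rfl)
    rw [e] at h3
    have h6 : 2 / c * (log x + |log (4 / log β)|) ≤ n := by linarith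
    rw [div_mul_eq_mul_div, div_le_iff₀ ha] at h6
    have h7 : 4 / log β * x ≤ exp (c * n / 2) := by
      rw [← exp_log (show 0 < 4 / log β * x by positivity), log_mul (by positivity) (by linarith)]
      exact exp_le_exp.2 (by linarith [le_abs_self (log (4 / log β))])
    have h8 : α ^ n = exp (c * n / 2) * exp (c * n / 2) := by
      rw [pow_eq_exp hα, ← exp_add, ← hc]; ring_nf
    rw [div_mul_eq_mul_div, div_le_iff₀ hb] at h7
    have h9 := exp_pos (c * n / 2)
    have h10 : exp (c * n / 2) * (4 * x) ≤ exp (c * n / 2) * (exp (c * n / 2) * log β) := by gcongr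
    refine le_of_mul_le_mul_left (a := 4 * x) ?_ (by linarith)
    simp only at hg ⊢
    rw [h8] at hg
    linarith
  have inj : InjOn Prod.fst (F : Set (ℕ × ℕ)) := by
    intro p hp p' hp' h
    by_contra hne
    have h1 := step p hp p' hp' hne h.le
    rw [← h] at h1
    have h3 := (hF p hp).2.2.1
    rw [e] at h3
    have h4 : 16 / c ^ 2 ≤ p.1 := by linarith
    rw [div_le_iff₀ (by positivity)] at h4
    have h5 : (0 : ℝ) < p.1 := by exact_mod_cast pos p hp
    have e1 := quadratic_le_exp_of_nonneg (x := c * p.1 / 2) (by positivity)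
    have e2 : (0 : ℝ) ≤ c * p.1 / 2 := by positivity
    have e3 : (p.1 : ℝ) * 16 ≤ p.1 * (p.1 * c ^ 2) := by gcongr
    nlinarith
  by_contra hlt
  obtain ⟨n, hn, hk⟩ := chainN ha (k + 1) (F.image Prod.fst) (fun n hn => by
      obtain ⟨p, hp, rfl⟩ := Finset.mem_image.1 hn
      have h3 := (hF p hp).2.2.1
      rw [e] at h3
      linarith)
    (fun n hn i hi hni => by
      obtain ⟨p, hp, rfl⟩ := Finset.mem_image.1 hn
      obtain ⟨p', hp', rfl⟩ := Finset.mem_image.1 hi
      exact step p hp p' hp' (fun h => hni.ne (congrArg Prod.fst h)) hni.le)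
    (by rw [Finset.card_image_of_injOn inj]; omega)
  obtain ⟨p, hp, rfl⟩ := Finset.mem_image.1 hn
  have := (hF p hp).2.2.2.1
  have := tw_lt_succ k
  omega

end Pool.Agent.Lib.MP_606be1_nt.TG
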