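import Pool.Agent.Lib.MP_606be1_nt.TG.Main

/-! The asymptotic form of the cut count, and the case of `π` and `e`. -/

namespace Pool.Agent.Lib.MP_606be1_nt.TG

open Real Set Filter Asymptotics

theorem equiv_of_bound {f : ℝ → ℕ → ℕ → Set (ℕ × ℕ)} {a c : ℝ} (hc : 0 < c)
    (F : ∃ C : ℝ, ∀ (x : ℝ) (k G : ℕ), 3 ≤ x → 1 ≤ G → x ≤ a ^ tw k → ∃ N : ℕ,
      (f x k G).encard = N ∧ |(N : ℝ) - log x ^ 2 / c| ≤
        C * (log x + log x ^ 2 / G + (k + 1) * G))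
    (k G : ℝ → ℕ) (hG : Tendsto G atTop atTop)
    (hk : (fun x => ((k x : ℝ) + 1) * G x) =o[atTop] fun x => log x ^ 2)
    (hx : ∀ᶠ x in atTop, x ≤ a ^ tw (k x)) :
    IsEquivalent atTop (fun x => ((f x (k x) (G x)).ncard : ℝ)) fun x => log x ^ 2 / c := by
  obtain ⟨C, hC⟩ := F
  have h1 : (fun x : ℝ => log x) =o[atTop] fun x => log x ^ 2 := by
    simpa using lin_isLittleO 1 0
  have h2 : (fun x : ℝ => log x ^ 2 / G x) =o[atTop] fun x => log x ^ 2 := by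
    have h : (fun x => ((G x : ℝ))⁻¹) =o[atTop] fun _ => (1 : ℝ) :=
      (isLittleO_one_iff ℝ).2 (tendsto_natCast_atTop_atTop.comp hG).inv_tendsto_atTop
    simpa [div_eq_mul_inv] using (isBigO_refl (fun x : ℝ => log x ^ 2) atTop).mul_isLittleO h
  have h3 := ((h1.add h2).add hk).const_mul_left C
  have hO : (fun x : ℝ => log x ^ 2) =O[atTop] fun x => log x ^ 2 / c := by
    simpa [div_eq_inv_mul] using
      (isBigO_refl (fun x : ℝ => log x ^ 2) atTop).const_mul_right (c := c⁻¹) (by positivity)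
  refine IsBigO.trans_isLittleO (IsBigO.of_bound 1 ?_) (h3.trans_isBigO hO)
  filter_upwards [hx, eventually_ge_atTop 3, hG.eventually_ge_atTop 1] with x e1 e2 e3
  obtain ⟨N, n1, n2⟩ := hC x (k x) (G x) e2 e3 e1
  have : (f x (k x) (G x)).ncard = N := by rw [ncard_def, n1]; simp
  simp only [Pi.sub_apply, this, Real.norm_eq_abs, one_mul]
  exact n2.trans (le_abs_self _)

theorem piE (k G : ℝ → ℕ) (hG : Tendsto G atTop atTop)
    (hk : (fun x => ((k x : ℝ) + 1) * G x) =o[atTop] fun x => log x ^ 2)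
    (hx : ∀ᶠ x in atTop, x ≤ π ^ tw (k x)) :
    IsEquivalent atTop (fun x => (({p : ℕ × ℕ | |π ^ p.1 - exp 1 ^ p.2| ≤ x ∧ p.1 ≤ tw (k x) ∧
      Nat.gcd p.1 p.2 ≤ G x}.ncard : ℕ) : ℝ)) fun x => log x ^ 2 / log π := by
  have h1 : 1 < π := by linarith [pi_gt_three]
  have h2 : 1 < exp 1 := by linarith [exp_one_gt_d9]
  have n1 : ‖((π : ℝ) : ℂ)‖ = π := by rw [Complex.norm_real, Real.norm_of_nonneg (by linarith)]
  have n2 : ‖((exp 1 : ℝ) : ℂ)‖ = exp 1 := by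
    rw [Complex.norm_real, Real.norm_of_nonneg (by linarith)]
  have F := truncated (α := (π : ℝ)) (β := (exp 1 : ℝ)) (by rwa [n1]) (by rwa [n2])
  rw [n1, n2, log_exp, mul_one] at F
  refine equiv_of_bound (f := fun x k G => {p : ℕ × ℕ | |π ^ p.1 - exp 1 ^ p.2| ≤ x ∧
    p.1 ≤ tw k ∧ Nat.gcd p.1 p.2 ≤ G}) (log_pos h1) ?_ k G hG hk hx
  convert F using 9 with C x k G
  ext p
  simp only [S, ← Complex.ofReal_pow, ← Complex.ofReal_sub, Complex.norm_real,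
    Real.norm_eq_abs]

end Pool.Agent.Lib.MP_606be1_nt.TG
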