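import Pool.Agent.Lib.MP_606be1_nt.TG.Gap

/-! The count cut at a tower height and at a bound for the gcd. -/

namespace Pool.Agent.Lib.MP_606be1_nt.TG

open Real Set Filter

/-- pairs in a box with large gcd -/
lemma big_gcd (N M G : ℕ) (hG : 1 ≤ G) :
    (((Finset.Icc 1 N ×ˢ Finset.Icc 1 M).filter fun p => G < Nat.gcd p.1 p.2).card : ℝ)
      ≤ N * M / G := by
  classical
  have hsub : ((Finset.Icc 1 N ×ˢ Finset.Icc 1 M).filter fun p => G < Nat.gcd p.1 p.2) ⊆
      (Finset.Ioc G (G + N)).biUnion fun g =>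
        (Finset.Icc 1 (N / g) ×ˢ Finset.Icc 1 (M / g)).image fun p => (g * p.1, g * p.2) := by
    rintro ⟨n, m⟩ hp
    simp only [Finset.mem_filter, Finset.mem_product, Finset.mem_Icc] at hp
    obtain ⟨⟨⟨h1, h2⟩, h3, h4⟩, h5⟩ := hp
    have g1 := Nat.gcd_dvd_left n m
    have g2 := Nat.gcd_dvd_right n m
    have g0 : 0 < Nat.gcd n m := by omega
    have l1 := Nat.le_of_dvd h1 g1
    have l2 := Nat.le_of_dvd h3 g2
    refine Finset.mem_biUnion.2 ⟨Nat.gcd n m, Finset.mem_Ioc.2 ⟨h5, by omega⟩,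
      Finset.mem_image.2 ⟨(n / Nat.gcd n m, m / Nat.gcd n m), ?_, ?_⟩⟩
    · simp only [Finset.mem_product, Finset.mem_Icc]
      exact ⟨⟨Nat.div_pos l1 g0, Nat.div_le_div_right h2⟩,
        Nat.div_pos l2 g0, Nat.div_le_div_right h4⟩
    · simp only [Nat.mul_div_cancel' g1, Nat.mul_div_cancel' g2]
  have h1 := (Finset.card_le_card hsub).trans Finset.card_biUnion_le
  have h2 : (((Finset.Icc 1 N ×ˢ Finset.Icc 1 M).filter fun p => G < Nat.gcd p.1 p.2).card : ℝ)
      ≤ ∑ g ∈ Finset.Ioc G (G + N), (N * M : ℝ) * ((g : ℝ) ^ 2)⁻¹ := by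
    refine (Nat.cast_le.2 h1).trans ?_
    push_cast
    refine Finset.sum_le_sum fun g _ => ?_
    refine (Nat.cast_le.2 Finset.card_image_le).trans ?_
    simp only [Finset.card_product, Nat.card_Icc, add_tsub_cancel_right, Nat.cast_mul]
    calc ((N / g : ℕ) : ℝ) * (M / g : ℕ) ≤ N / g * (M / g) := by
          gcongr <;> exact Nat.cast_div_le
      _ = _ := by ring
  rw [← Finset.mul_sum] at h2
  have h3 := sum_Ioc_inv_sq_le_sub (α := ℝ) (k := G) (n := G + N) (by omega) (by omega)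
  have h4 : (0 : ℝ) ≤ ((G + N : ℕ) : ℝ)⁻¹ := by positivity
  refine h2.trans ?_
  rw [div_eq_mul_inv]
  gcongr
  linarith

/-- upper bound for real bases -/
lemma upperR {α β : ℝ} (hα : 1 < α) (hβ : 1 < β) : ∃ C : ℝ, 0 ≤ C ∧ ∀ x, 1 ≤ x → ∀ (k G : ℕ)
    (S : Finset (ℕ × ℕ)), (∀ p ∈ S, p ∈ T α β x ∧ p.1 ≤ tw k ∧ Nat.gcd p.1 p.2 ≤ G) →
    (S.card : ℝ) ≤ (log (2 * x) / log α + 1) * (log (3 * x) / log β + 1)
        + (2 / log α * (log x + C) + 1) * (2 / log β + 1) + 2 * (k + 1) * G := by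
  classical
  have ha := log_pos hα
  have hb := log_pos hβ
  obtain ⟨C, hC0, hC⟩ := far hα hβ
  refine ⟨C, hC0, fun x hx k G S hS => ?_⟩
  have hL := log_nonneg hx
  set N := ⌊log (2 * x) / log α⌋₊ + 1 with hN
  set M := ⌊log (3 * x) / log β⌋₊ + 1 with hM
  set N' := ⌊2 / log α * (log x + C)⌋₊ + 1 with hN'
  set K := ⌊2 / log β⌋₊ + 1 with hK
  set ξ := log α / log β with hξ
  set g : ℕ × ℕ → ℕ × ℕ := fun p => (p.1, ⌈p.1 * ξ - 1 / log β⌉₊ + p.2) with hg
  set F := S.filter fun p => 2 * x ≤ α ^ p.1 ∧ 2 / log α * (log x + C) < p.1 with hF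
  have hsub : S ⊆ Finset.range N ×ˢ Finset.range M ∪
      (Finset.range N' ×ˢ Finset.range K).image g ∪ F := by
    rintro ⟨n, m⟩ hp
    have h := (hS _ hp).1
    simp only [Finset.mem_union, Finset.mem_product, Finset.mem_range, Finset.mem_image]
    have h' : |α ^ n - β ^ m| ≤ x := h
    rcases le_total (α ^ n) (2 * x) with hn | hn
    · left; left
      exact ⟨(pow_le_iff hα (by linarith) _).1 hn,
        (pow_le_iff hβ (by linarith) _).1 (by linarith [(abs_le.1 h').1])⟩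
    rcases lt_or_ge (2 / log α * (log x + C)) n with hn' | hn'
    · right
      exact Finset.mem_filter.2 ⟨hp, hn, hn'⟩
    · left; right
      have h1 := approx_of_mem hα hβ h hn
      have h2 : |(n : ℝ) * ξ - m| ≤ 1 / log β := by
        rw [le_div_iff₀ hb]
        have e0 : 0 ≤ log β * |(n : ℝ) * ξ - m| := by positivity
        have e1 : x * (log β * |(n : ℝ) * ξ - m|) ≤ α ^ n / 2 * (log β * |(n : ℝ) * ξ - m|) := by
          gcongr; linarith
        nlinarith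
      obtain ⟨h3, h4⟩ := abs_le.1 h2
      have h5 : ⌈n * ξ - 1 / log β⌉₊ ≤ m := Nat.ceil_le.2 (by linarith)
      refine ⟨(n, m - ⌈n * ξ - 1 / log β⌉₊), ⟨?_, ?_⟩, ?_⟩
      · exact Nat.lt_succ_of_le (Nat.le_floor hn')
      · refine Nat.lt_succ_of_le (Nat.le_floor ?_)
        have := Nat.le_ceil (n * ξ - 1 / log β)
        rw [Nat.cast_sub h5]
        have e : 2 / log β = 2 * (1 / log β) := by ring
        linarith
      · simp only [hg, Prod.mk.injEq, true_and]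
        omega
  have hFc : F.card ≤ 2 * (k + 1) * G := by
    have := Finset.card_le_mul_card_image_of_maps_to (s := F) (t := Finset.Icc 1 G)
      (f := fun p => Nat.gcd p.1 p.2) (fun p hp => by
        obtain ⟨h1, -, h3⟩ := Finset.mem_filter.1 hp
        have h4 : 0 ≤ 2 / log α * (log x + C) := by positivity
        have h5 : 0 < p.1 := by exact_mod_cast h4.trans_lt h3
        exact Finset.mem_Icc.2 ⟨Nat.gcd_pos_of_pos_left _ h5, (hS p h1).2.2⟩) (2 * (k + 1))
      (fun b _ => hC x hx k b _ fun p hp => by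
        obtain ⟨hp, hb⟩ := Finset.mem_filter.1 hp
        obtain ⟨h1, h2, h3⟩ := Finset.mem_filter.1 hp
        exact ⟨(hS p h1).1, h2, h3, (hS p h1).2.1, hb⟩)
    simpa using this
  have h2 : S.card ≤ N * M + N' * K + 2 * (k + 1) * G := by
    refine (Finset.card_le_card hsub).trans ((Finset.card_union_le _ _).trans (add_le_add
      ((Finset.card_union_le _ _).trans (add_le_add ?_ ?_)) hFc))
    · simp
    · exact Finset.card_image_le.trans (by simp)
  have l2 : 0 ≤ log (2 * x) := log_nonneg (by linarith)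
  have l3 : 0 ≤ log (3 * x) := log_nonneg (by linarith)
  have h3 : (N : ℝ) ≤ log (2 * x) / log α + 1 := by
    rw [hN]; push_cast; linarith [Nat.floor_le (div_nonneg l2 ha.le)]
  have h4 : (M : ℝ) ≤ log (3 * x) / log β + 1 := by
    rw [hM]; push_cast; linarith [Nat.floor_le (div_nonneg l3 hb.le)]
  have h5 : (N' : ℝ) ≤ 2 / log α * (log x + C) + 1 := by
    rw [hN']; push_cast
    linarith [Nat.floor_le (show 0 ≤ 2 / log α * (log x + C) by positivity)]
  have h6 : (K : ℝ) ≤ 2 / log β + 1 := by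
    rw [hK]; push_cast; linarith [Nat.floor_le (show 0 ≤ 2 / log β by positivity)]
  have h2' : (S.card : ℝ) ≤ N * M + N' * K + 2 * (k + 1) * G := by exact_mod_cast h2
  refine h2'.trans ?_
  gcongr

/-- the cut set of solutions -/
def S (α β : ℂ) (x : ℝ) (k G : ℕ) : Set (ℕ × ℕ) :=
  {p | ‖α ^ p.1 - β ^ p.2‖ ≤ x ∧ p.1 ≤ tw k ∧ Nat.gcd p.1 p.2 ≤ G}

variable {α β : ℂ} (hα : 1 < ‖α‖) (hβ : 1 < ‖β‖)
include hα hβ

omit hα hβ in
lemma mem_T {x : ℝ} {k G : ℕ} {p : ℕ × ℕ} (h : p ∈ S α β x k G) : p ∈ T ‖α‖ ‖β‖ x := by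
  have := (abs_norm_sub_norm_le _ _).trans h.1
  rwa [norm_pow, norm_pow] at this

lemma S_finite (x : ℝ) (k G : ℕ) : (S α β x k G).Finite := by
  obtain ⟨M, hM⟩ := pow_unbounded_of_one_lt (‖α‖ ^ tw k + x) hβ
  refine ((finite_Iic (tw k)).prod (finite_Iic M)).subset fun p hp => ⟨hp.2.1, ?_⟩
  have h1 : |‖α‖ ^ p.1 - ‖β‖ ^ p.2| ≤ x := mem_T hp
  have h2 : ‖α‖ ^ p.1 ≤ ‖α‖ ^ tw k := pow_le_pow_right₀ hα.le hp.2.1
  exact ((pow_lt_pow_iff_right₀ hβ).1 (by linarith [(abs_le.1 h1).1])).le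

lemma lowerC {x : ℝ} (hx : 2 ≤ x) {k G : ℕ} (hG : 1 ≤ G) (hk : x ≤ ‖α‖ ^ tw k) :
    ∃ N M : ℕ, log (x / 2) / log ‖α‖ ≤ N + 1 ∧ (N : ℝ) ≤ log (x / 2) / log ‖α‖ ∧
      log (x / 2) / log ‖β‖ ≤ M + 1 ∧ (M : ℝ) ≤ log (x / 2) / log ‖β‖ ∧
      (N : ℝ) * M - N * M / G ≤ (S α β x k G).ncard := by
  classical
  have ha := log_pos hα
  have hb := log_pos hβ
  have hx2 : 1 ≤ x / 2 := by linarith
  have hL := log_nonneg hx2
  set N := ⌊log (x / 2) / log ‖α‖⌋₊ with hN
  set M := ⌊log (x / 2) / log ‖β‖⌋₊ with hM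
  refine ⟨N, M, (Nat.lt_floor_add_one _).le, Nat.floor_le (by positivity),
    (Nat.lt_floor_add_one _).le, Nat.floor_le (by positivity), ?_⟩
  have hsub : (((Finset.Icc 1 N ×ˢ Finset.Icc 1 M).filter fun p => ¬ G < Nat.gcd p.1 p.2 :
      Finset (ℕ × ℕ)) : Set (ℕ × ℕ)) ⊆ S α β x k G := by
    intro p hp
    simp only [Finset.coe_filter, Finset.mem_product, Finset.mem_Icc, mem_ofPred_eq] at hp
    obtain ⟨⟨⟨-, h2⟩, -, h4⟩, h5⟩ := hp
    have e1 := (pow_le_iff hα hx2 p.1).2 (by omega)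
    have e2 := (pow_le_iff hβ hx2 p.2).2 (by omega)
    refine ⟨(norm_sub_le _ _).trans ?_, (pow_le_pow_iff_right₀ hα).1 (by linarith), by omega⟩
    rw [norm_pow, norm_pow]
    linarith
  have h1 := ncard_le_ncard hsub (S_finite hα hβ x k G)
  rw [ncard_coe_finset] at h1
  have h2 := Finset.card_filter_add_card_filter_not (s := Finset.Icc 1 N ×ˢ Finset.Icc 1 M)
    fun p => G < Nat.gcd p.1 p.2
  simp only [Finset.card_product, Nat.card_Icc, add_tsub_cancel_right] at h2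
  have h3 := big_gcd N M G hG
  have h4 : ((((Finset.Icc 1 N ×ˢ Finset.Icc 1 M).filter fun p => G < Nat.gcd p.1 p.2).card
      + (S α β x k G).ncard : ℕ) : ℝ) ≥ (N * M : ℕ) := by
    exact_mod_cast (by omega)
  push_cast at h4
  linarith

theorem truncated : ∃ C : ℝ, ∀ (x : ℝ) (k G : ℕ), 3 ≤ x → 1 ≤ G → x ≤ ‖α‖ ^ tw k →
    ∃ N : ℕ, (S α β x k G).encard = N ∧ |(N : ℝ) - log x ^ 2 / (log ‖α‖ * log ‖β‖)| ≤
      C * (log x + log x ^ 2 / G + (k + 1) * G) := by
  have ha := log_pos hα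
  have hb := log_pos hβ
  obtain ⟨C, hC0, hC⟩ := upperR hα hβ
  set a := log ‖α‖
  set b := log ‖β‖
  have l2 : 0 < log 2 := log_pos (by norm_num)
  have l3 : 0 < log 3 := log_pos (by norm_num)
  set u : ℝ := log 2 / a + 1 with hu
  set v : ℝ := log 2 / b + 1 with hv
  set A : ℝ := u / b + (log 3 / b + 1) / a + 2 / a * (2 / b + 1) with hA
  set B : ℝ := u * (log 3 / b + 1) + (2 / a * C + 1) * (2 / b + 1) with hB
  set W : ℝ := v / a + u / b + u * v with hW
  have A0 : 0 ≤ A := by positivity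
  have B0 : 0 ≤ B := by positivity
  have W0 : 0 ≤ W := by positivity
  have ab0 : 0 < 1 / (a * b) := by positivity
  refine ⟨A + B + W + 1 / (a * b) + 2, fun x k G hx hG hk => ?_⟩
  have hfin := S_finite hα hβ x k G
  refine ⟨(S α β x k G).ncard, hfin.cast_ncard_eq.symm, ?_⟩
  have hL : 1 ≤ log x := by
    rw [le_log_iff_exp_le (by linarith)]
    linarith [exp_one_lt_d9]
  have hup := hC x (by linarith) k G hfin.toFinset fun p hp =>
    have h : p ∈ S α β x k G := by simpa using hp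
    ⟨mem_T h, h.2⟩
  rw [← ncard_eq_toFinset_card _ hfin, log_mul (by norm_num) (by linarith),
    log_mul (by norm_num) (by linarith)] at hup
  obtain ⟨N, M, n1, n2, m1, m2, hlo⟩ := lowerC hα hβ (by linarith) hG hk
  rw [log_div (by linarith) (by norm_num)] at n1 n2 m1 m2
  set L := log x
  have e1 : (((log 2 + L) / a + 1) * ((log 3 + L) / b + 1)
      + (2 / a * (L + C) + 1) * (2 / b + 1)) = L ^ 2 / (a * b) + (A * L + B) := by
    rw [hA, hB, hu]; field_simp; ring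
  rw [e1] at hup
  have n3 : (N : ℝ) ≤ L / a := n2.trans (by gcongr; linarith)
  have m3 : (M : ℝ) ≤ L / b := m2.trans (by gcongr; linarith)
  have n4 : L / a ≤ N + u := by rw [hu]; rw [sub_div] at n1; linarith
  have m4 : L / b ≤ M + v := by rw [hv]; rw [sub_div] at m1; linarith
  have u0 : 0 ≤ u := by positivity
  have v0 : 0 ≤ v := by positivity
  have e2 : L ^ 2 / (a * b) = L / a * (L / b) := by field_simp
  have e3 : L / a * (L / b) ≤ (N + u) * (M + v) := by gcongr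
  have e4 : (N : ℝ) * v ≤ L / a * v := by gcongr
  have e5 : u * M ≤ u * (L / b) := by gcongr
  have e6 : u * v * 1 ≤ u * v * L := by gcongr
  have e7 : L / a * v + u * (L / b) + u * v * L = W * L := by rw [hW]; ring
  have G0 : (0 : ℝ) < G := by exact_mod_cast hG
  have e8 : (N : ℝ) * M / G ≤ L / a * (L / b) / G := by gcongr
  have e9 : L / a * (L / b) / G = 1 / (a * b) * (L ^ 2 / G) := by field_simp
  have p1 : 0 ≤ L ^ 2 / G := by positivity
  have p2 : 0 ≤ ((k : ℝ) + 1) * G := by positivity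
  have p3 : B ≤ B * L := le_mul_of_one_le_right B0 hL
  set X := L ^ 2 / G
  set Y := ((k : ℝ) + 1) * G with hY
  have e10 : 2 * ((k : ℝ) + 1) * G = 2 * Y := by rw [hY]; ring
  have L0 : 0 ≤ L := by linarith
  have q1 := mul_nonneg A0 L0
  have q2 := mul_nonneg W0 L0
  have q3 := mul_nonneg ab0.le L0
  have q4 := mul_nonneg (add_nonneg (add_nonneg A0 B0) W0) (add_nonneg p1 p2)
  have q5 := mul_nonneg ab0.le p1
  have q6 := mul_nonneg ab0.le p2
  have q7 := mul_nonneg B0 L0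
  refine abs_le.2 ⟨?_, ?_⟩ <;> linarith

end Pool.Agent.Lib.MP_606be1_nt.TG
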